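import Pool.Agent.W48.KS.Defs

/-!
Project KS (helper48), part NUM: the numerical value at the angle pi / 3.
-/

set_option autoImplicit false

namespace Pool.Agent.W249.KS

open Pool.Agent.W48.KS Pool.Agent.W259.GP Finset

/-- the entropy in terms of the symplectic eigenvalue -/
lemma gH_eq {c ν : ℝ} (hν : 1 < ν) (hc : 1 + 2 * c = ν ^ 2) :
    gH c = (ν + 1) / 2 * Real.log ((ν + 1) / 2) - (ν - 1) / 2 * Real.log ((ν - 1) / 2) := by
  have h0 : √(1 + 2 * c) = ν := by rw [hc]; exact Real.sqrt_sq (by linarith)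
  have hr : rr c = (ν - 1) / (ν + 1) := by unfold rr; rw [h0]
  have h1 : 0 < ν - 1 := by linarith
  have h2 : 0 < ν + 1 := by linarith
  have e1 : 1 - rr c = 2 / (ν + 1) := by rw [hr]; field_simp; ring
  have e2 : rr c / (1 - rr c) = (ν - 1) / 2 := by rw [e1, hr]; field_simp
  have e3 : Real.log (rr c) = Real.log ((ν - 1) / 2) - Real.log ((ν + 1) / 2) := by
    rw [← Real.log_div (by positivity) (by positivity), hr]
    congr 1
    field_simp
  have e4 : -Real.log (1 - rr c) = Real.log ((ν + 1) / 2) := by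
    rw [e1, ← Real.log_inv]
    congr 1
    rw [inv_div]
  unfold gH
  rw [e4, e2, e3]
  ring

/-- `log (109 / 100)` -/
lemma log1 : Real.log (109 / 100) ≤ 8617771 / 100000000 := by
  have h := Real.abs_log_sub_add_sum_range_le (x := 9 / 109) (by rw [abs_of_pos] <;> norm_num) 7
  have e : Real.log (109 / 100) = -Real.log (1 - 9 / 109) := by
    rw [← Real.log_inv]; norm_num
  rw [abs_le] at h
  have h1 := h.1
  rw [abs_of_pos (by norm_num : (0 : ℝ) < 9 / 109)] at h1
  simp only [Finset.sum_range_succ, Finset.sum_range_zero] at h1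
  rw [e]
  norm_num at h1 ⊢
  linarith

/-- `log (9 / 100)` -/
lemma log2 : -Real.log (9 / 100) ≤ 7 / 2 * Real.log 2 - 1806943 / 100000000 := by
  have h := Real.abs_log_sub_add_sum_range_le (x := 23 / 648) (by rw [abs_of_pos] <;> norm_num) 4
  have e : 2 * -Real.log (9 / 100) = 7 * Real.log 2 + Real.log (1 - 23 / 648) := by
    have h1 : Real.log ((100 / 9) ^ 2 : ℝ) = Real.log (2 ^ 7 * (1 - 23 / 648)) := by norm_num
    rw [Real.log_pow, Real.log_mul (by norm_num) (by norm_num), Real.log_pow] at h1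
    have h2 : Real.log (100 / 9 : ℝ) = -Real.log (9 / 100) := by
      rw [← Real.log_inv]; norm_num
    rw [h2] at h1
    push_cast at h1
    exact h1
  rw [abs_le] at h
  have h1 := h.2
  rw [abs_of_pos (by norm_num : (0 : ℝ) < 23 / 648)] at h1
  simp only [Finset.sum_range_succ, Finset.sum_range_zero] at h1
  norm_num at h1 e ⊢
  linarith

/-- `log (2529 / 2528)` -/
lemma log3 : Real.log (2529 / 2528) ≤ 1 / 2528 := by
  have h := Real.log_le_sub_one_of_pos (x := 2529 / 2528) (by norm_num)
  norm_num at h ⊢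
  linarith

/-- `log (1 / 2528)` -/
lemma log4 : -Real.log (1 / 2528) ≤ (11 + 24 / 79) * Real.log 2 := by
  have e : -Real.log (1 / 2528) = 11 * Real.log 2 + Real.log (79 / 64) := by
    have h1 : Real.log ((2528 : ℝ)) = Real.log (2 ^ 11 * (79 / 64)) := by norm_num
    rw [Real.log_mul (by norm_num) (by norm_num), Real.log_pow] at h1
    rw [← Real.log_inv]
    norm_num at h1 ⊢
    linarith
  have h2 : (79 / 64 : ℝ) ^ 79 ≤ 2 ^ 24 := by norm_num
  have h3 := Real.log_le_log (by positivity) h2
  rw [Real.log_pow, Real.log_pow] at h3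
  push_cast at h3
  rw [e]
  linarith

/-- `log (155 / 154)` -/
lemma log5 : 2 / 309 ≤ Real.log (155 / 154) := by
  have h := Real.le_log_one_add_of_nonneg (x := 1 / 154) (by norm_num)
  norm_num at h ⊢
  exact h

/-- `log (1 / 154)` -/
lemma log6 : 7 * Real.log 2 + 18492 / 100000 ≤ -Real.log (1 / 154) := by
  have e : -Real.log (1 / 154) = 7 * Real.log 2 + -Real.log (1 - 13 / 77) := by
    have h1 : Real.log ((154 : ℝ)) = Real.log (2 ^ 7 * (1 - 13 / 77)⁻¹) := by norm_num
    rw [Real.log_mul (by norm_num) (by norm_num), Real.log_pow, Real.log_inv] at h1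
    rw [← Real.log_inv]
    norm_num at h1 ⊢
    linarith
  have h := Real.abs_log_sub_add_sum_range_le (x := 13 / 77) (by rw [abs_of_pos] <;> norm_num) 8
  rw [abs_le] at h
  have h1 := h.2
  rw [abs_of_pos (by norm_num : (0 : ℝ) < 13 / 77)] at h1
  simp only [Finset.sum_range_succ, Finset.sum_range_zero] at h1
  rw [e]
  norm_num at h1 ⊢
  linarith

theorem main : S_num := by
  refine ⟨981 / 5000, 2529 / 3195392, 2168412582976 / 2313817857351, by norm_num, by norm_num,
    by norm_num, by norm_num, ?_, ?_⟩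
  · have h1 : (31.32091952 : ℝ) / 59 ≤ ph (981 / 5000) := by
      unfold ph
      apply Real.le_sqrt_of_sq_le
      norm_num
    have h2 : (50.289163 : ℝ) / 1265 ≤ ph (2529 / 3195392) := by
      unfold ph
      apply Real.le_sqrt_of_sq_le
      norm_num
    have h3 : (2168412582976 / 2313817857351 : ℝ) * (31.32091952 / 59)
        ≤ 2168412582976 / 2313817857351 * ph (981 / 5000) :=
      mul_le_mul_of_nonneg_left h1 (by norm_num)
    have h4 : (1 - 2168412582976 / 2313817857351 : ℝ) * (50.289163 / 1265)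
        ≤ (1 - 2168412582976 / 2313817857351) * ph (2529 / 3195392) :=
      mul_le_mul_of_nonneg_left h2 (by norm_num)
    refine lt_of_lt_of_le ?_ (add_le_add h3 h4)
    norm_num
  · unfold tm
    rw [gH_eq (c := 981 / 5000) (ν := 59 / 50) (by norm_num) (by norm_num),
      gH_eq (c := 2529 / 3195392) (ν := 1265 / 1264) (by norm_num) (by norm_num),
      gH_eq (ν := 78 / 77) (by norm_num) (by norm_num)]
    have e1 : ((59 / 50 : ℝ) + 1) / 2 = 109 / 100 := by norm_num
    have e2 : ((59 / 50 : ℝ) - 1) / 2 = 9 / 100 := by norm_num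
    have e3 : ((1265 / 1264 : ℝ) + 1) / 2 = 2529 / 2528 := by norm_num
    have e4 : ((1265 / 1264 : ℝ) - 1) / 2 = 1 / 2528 := by norm_num
    have e5 : ((78 / 77 : ℝ) + 1) / 2 = 155 / 154 := by norm_num
    have e6 : ((78 / 77 : ℝ) - 1) / 2 = 1 / 154 := by norm_num
    rw [e1, e2, e3, e4, e5, e6]
    have l1 := log1
    have l2 := log2
    have l3 := log3
    have l4 := log4
    have l5 := log5
    have l6 := log6
    have k1 := Real.log_two_gt_d9
    have k2 := Real.log_two_lt_d9
    linarith

end Pool.Agent.W249.KS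

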